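import Pool.Agent.Helper5.KPA.StD

/-! Project KP, module ANO: graded submodules of `A^ρ` are finitely generated. -/

set_option autoImplicit false

namespace Pool.Agent.Helper16.KPA

open Pool.Agent.Helper5.KPA Pool.Agent.Helper52.KP MvPolynomial

private lemma fd_hp (s : ℕ) (i : ℤ) : FiniteDimensional ℂ (hp s i) := by
  by_cases h : 0 ≤ i
  · have e : hp s i = homogeneousSubmodule (Fin s) ℂ i.toNat := by rw [hp, if_pos h]
    rw [e]
    exact Module.Finite.iff_fg.2 (homogeneousSubmodule_fg _ _ _)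
  · have e : hp s i = ⊥ := by rw [hp, if_neg h]
    rw [e]
    infer_instance

/-- a homogeneous polynomial of positive degree is in the ideal of the variables -/
private lemma decomp {s n : ℕ} {p : MvPolynomial (Fin s) ℂ} (hp : p.IsHomogeneous (n + 1)) :
    ∃ b : Fin s → MvPolynomial (Fin s) ℂ, (∀ i, (b i).IsHomogeneous n) ∧
      p = ∑ i, X i * b i := by
  refine ⟨fun i => ((n : ℂ) + 1)⁻¹ • pderiv i p, fun i => ?_, ?_⟩
  · have h1 : (pderiv i p).IsHomogeneous (n + 1 - 1) := hp.pderiv
    rw [Nat.add_sub_cancel] at h1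
    exact (homogeneousSubmodule (Fin s) ℂ n).smul_mem _ h1
  · have h1 := hp.sum_X_mul_pderiv
    simp_rw [mul_smul_comm]
    rw [← Finset.smul_sum, h1, ← Nat.cast_smul_eq_nsmul ℂ, smul_smul]
    push_cast
    rw [inv_mul_cancel₀ (Nat.cast_add_one_ne_zero n), one_smul]

section

variable {s ρ : ℕ} (c : Fin ρ → ℤ)

/-- component of degree `k` -/
private noncomputable def pr (k : ℕ) :
    (Fin ρ → MvPolynomial (Fin s) ℂ) →ₗ[ℂ] (Fin ρ → MvPolynomial (Fin s) ℂ) :=
  LinearMap.pi fun i => if 0 ≤ (k : ℤ) + c i then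
    (homogeneousComponent ((k : ℤ) + c i).toNat) ∘ₗ LinearMap.proj i else 0

private lemma pr_apply (k : ℕ) (x : Fin ρ → MvPolynomial (Fin s) ℂ) (i : Fin ρ) :
    pr c k x i = if 0 ≤ (k : ℤ) + c i then
      homogeneousComponent ((k : ℤ) + c i).toNat (x i) else 0 := by
  unfold pr
  rw [LinearMap.pi_apply]
  split_ifs <;> rfl

private lemma pr_same {k : ℕ} {x : Fin ρ → MvPolynomial (Fin s) ℂ}
    (hx : ∀ i, x i ∈ hp s (k + c i)) : pr c k x = x := by
  funext i
  rw [pr_apply]
  have h := hx i
  unfold hp at h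
  split_ifs with h0
  · rw [if_pos h0] at h
    rw [homogeneousComponent_of_mem h, if_pos rfl]
  · rw [if_neg h0, Submodule.mem_bot] at h
    exact h.symm

private lemma pr_ne {k k' : ℕ} (hk : k ≠ k') {x : Fin ρ → MvPolynomial (Fin s) ℂ}
    (hx : ∀ i, x i ∈ hp s (k' + c i)) : pr c k x = 0 := by
  funext i
  rw [pr_apply]
  have h := hx i
  unfold hp at h
  split_ifs with h0
  · split_ifs at h with h1
    · rw [homogeneousComponent_of_mem h, if_neg (by omega)]
      rfl
    · rw [Submodule.mem_bot] at h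
      rw [h, map_zero]
      rfl
  · rfl

private lemma pr_smul {K d : ℕ} (hd : d ≤ K) (a : MvPolynomial (Fin s) ℂ)
    {t : Fin ρ → MvPolynomial (Fin s) ℂ} (ht : ∀ i, t i ∈ hp s (d + c i)) :
    pr c K (a • t) = homogeneousComponent (K - d) a • t := by
  funext i
  rw [pr_apply, Pi.smul_apply, Pi.smul_apply, smul_eq_mul, smul_eq_mul]
  have h := ht i
  unfold hp at h
  by_cases h0 : 0 ≤ (d : ℤ) + c i
  · rw [if_pos h0] at h
    rw [if_pos (by omega)]
    have e : ((K : ℤ) + c i).toNat = (K - d) + ((d : ℤ) + c i).toNat := by omega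
    rw [e]
    conv_lhs => rw [← sum_homogeneousComponent a, Finset.sum_mul, map_sum]
    have h1 : ∀ n, homogeneousComponent ((K - d) + ((d : ℤ) + c i).toNat)
        (homogeneousComponent n a * t i) =
        if n = K - d then homogeneousComponent (K - d) a * t i else 0 := by
      intro n
      have h2 : (homogeneousComponent n a * t i).IsHomogeneous (n + ((d : ℤ) + c i).toNat) :=
        (homogeneousComponent_isHomogeneous n a).mul h
      rw [homogeneousComponent_of_mem h2]
      by_cases h3 : n = K - d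
      · rw [if_pos h3, if_pos (by omega), h3]
      · rw [if_neg h3, if_neg (by omega)]
    simp_rw [h1]
    rw [Finset.sum_ite_eq']
    split_ifs with h4
    · rfl
    · rw [Finset.mem_range, not_lt] at h4
      rw [homogeneousComponent_eq_zero (K - d) a (by omega), zero_mul]
  · rw [if_neg h0, Submodule.mem_bot] at h
    rw [h, mul_zero, mul_zero, map_zero, ite_self]

end

private lemma smul_mem {s ρ : ℕ} {M : ℕ → Submodule ℂ (Fin ρ → MvPolynomial (Fin s) ℂ)}
    (hX : ∀ k (l : Fin s), ∀ x ∈ M k, (X l : MvPolynomial (Fin s) ℂ) • x ∈ M (k + 1)) (j : ℕ) :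
    ∀ (d : ℕ) (b : MvPolynomial (Fin s) ℂ) (t : Fin ρ → MvPolynomial (Fin s) ℂ),
      b.IsHomogeneous j → t ∈ M d → b • t ∈ M (d + j) := by
  induction j with
  | zero =>
    intro d b t hb ht
    rw [← totalDegree_zero_iff_isHomogeneous, totalDegree_eq_zero_iff_eq_C] at hb
    rw [hb, ← algebraMap_eq, algebraMap_smul]
    exact (M d).smul_mem _ ht
  | succ j ih =>
    intro d b t hb ht
    obtain ⟨b', hb', e⟩ := decomp hb
    rw [e, Finset.sum_smul]
    refine Submodule.sum_mem _ fun i _ => ?_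
    rw [mul_smul]
    exact hX (d + j) i _ (ih d (b' i) t (hb' i) ht)

theorem hANO : StANO := by
  classical
  intro s ρ c M hρ hM hX
  have hX' : ∀ k (l : Fin s), ∀ x ∈ M k, (X l : MvPolynomial (Fin s) ℂ) • x ∈ M (k + 1) := hX
  refine ⟨⟨?_, hX, ?_⟩, ⟨fun k => bot_le, ?_, ?_⟩⟩
  · intro k
    rw [Submodule.disjoint_def]
    intro x hx hx'
    rw [← pr_same c (hM k x hx)]
    have h1 : (⨆ j, ⨆ _ : j ≠ k, M j) ≤ LinearMap.ker (pr (s := s) c k) := by
      refine iSup₂_le fun j hj y hy => ?_
      rw [LinearMap.mem_ker]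
      exact pr_ne c (Ne.symm hj) (hM j y hy)
    exact LinearMap.mem_ker.1 (h1 hx')
  · intro k
    have h2 : ∀ i, FiniteDimensional ℂ (hp s (k + c i)) := fun i => fd_hp s _
    let L : M k →ₗ[ℂ] (∀ i, hp s (k + c i)) := LinearMap.pi fun i =>
      LinearMap.codRestrict (hp s (k + c i)) (LinearMap.proj i ∘ₗ (M k).subtype)
        (fun x => hM k x x.2 i)
    have hL : Function.Injective L := by
      intro x y hxy
      apply Subtype.ext
      funext i
      exact congrArg Subtype.val (congrFun hxy i)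
    exact FiniteDimensional.of_injective L hL
  · intro k i x hx
    have hx0 : x = 0 := hx
    rw [hx0, map_zero]
    exact Submodule.zero_mem _
  · have hfg : (Submodule.span (MvPolynomial (Fin s) ℂ)
        (⋃ k, (M k : Set (Fin ρ → MvPolynomial (Fin s) ℂ)))).FG := IsNoetherian.noetherian _
    rw [Submodule.fg_span_iff_fg_span_finset_subset] at hfg
    obtain ⟨T, hT, hspan⟩ := hfg
    have hd : ∀ t : T, ∃ d, (t : Fin ρ → MvPolynomial (Fin s) ℂ) ∈ M d := by
      intro t
      exact Set.mem_iUnion.1 (hT t.2)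
    choose d hd using hd
    refine ⟨∑ t, d t, fun k hk x hx => ?_⟩
    have hdk : ∀ t, d t ≤ k := fun t =>
      (Finset.single_le_sum (fun _ _ => Nat.zero_le _) (Finset.mem_univ t)).trans hk
    have hx1 : x ∈ Submodule.span (MvPolynomial (Fin s) ℂ)
        (T : Set (Fin ρ → MvPolynomial (Fin s) ℂ)) := by
      rw [← hspan]
      exact Submodule.subset_span (Set.mem_iUnion.2 ⟨k + 1, hx⟩)
    have hx2 : ∃ a : T → MvPolynomial (Fin s) ℂ,
        x = ∑ t, a t • (t : Fin ρ → MvPolynomial (Fin s) ℂ) := by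
      have h1 : x ∈ Submodule.span (MvPolynomial (Fin s) ℂ)
          (Set.range (fun t : T => (t : Fin ρ → MvPolynomial (Fin s) ℂ))) := by
        rw [Subtype.range_coe_subtype]
        exact hx1
      rw [Submodule.mem_span_range_iff_exists_fun] at h1
      obtain ⟨a, ha⟩ := h1
      exact ⟨a, ha.symm⟩
    obtain ⟨a, ha⟩ := hx2
    have hx3 : x = ∑ t, homogeneousComponent (k - d t + 1) (a t) •
        (t : Fin ρ → MvPolynomial (Fin s) ℂ) := by
      rw [← pr_same c (hM (k + 1) x hx)]
      conv_lhs => rw [ha, map_sum]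
      refine Finset.sum_congr rfl fun t _ => ?_
      rw [pr_smul c (by have := hdk t; omega) (a t) (hM (d t) _ (hd t))]
      congr 2
      have := hdk t
      have e : k + 1 - d t = k - d t + 1 := by omega
      rw [e]
    have hb : ∀ t, ∃ b : Fin s → MvPolynomial (Fin s) ℂ, (∀ i, (b i).IsHomogeneous (k - d t)) ∧
        homogeneousComponent (k - d t + 1) (a t) = ∑ i, X i * b i := fun t =>
      decomp (homogeneousComponent_isHomogeneous _ _)
    choose b hb1 hb2 using hb
    refine ⟨fun i => ∑ t, b t i • (t : Fin ρ → MvPolynomial (Fin s) ℂ), fun i => ?_, ?_⟩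
    · refine Submodule.sum_mem _ fun t _ => ?_
      have h1 := smul_mem hX' (k - d t) (d t) (b t i) t (hb1 t i) (hd t)
      have e : d t + (k - d t) = k := by have := hdk t; omega
      rw [e] at h1
      exact h1
    · have h1 : x - ∑ i, dg s ρ (X i) (∑ t, b t i • (t : Fin ρ → MvPolynomial (Fin s) ℂ)) = 0 := by
        rw [sub_eq_zero]
        have h2 : ∀ i, dg s ρ (X i) (∑ t, b t i • (t : Fin ρ → MvPolynomial (Fin s) ℂ)) =
            ∑ t, (X i * b t i) • (t : Fin ρ → MvPolynomial (Fin s) ℂ) := by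
          intro i
          have h3 : ∀ y, dg s ρ (X i) y = (X i : MvPolynomial (Fin s) ℂ) • y := fun y => rfl
          rw [h3, Finset.smul_sum]
          exact Finset.sum_congr rfl fun t _ => (mul_smul _ _ _).symm
        simp_rw [h2]
        rw [Finset.sum_comm]
        conv_lhs => rw [hx3]
        refine Finset.sum_congr rfl fun t _ => ?_
        rw [hb2 t, Finset.sum_smul]
      exact h1

end Pool.Agent.Helper16.KPA
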